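import Mathlib
import Pool.Agent.U220.RD.Stm

/-! Project RD (helper220), package EXCL: exclusion of the other valuations. -/

set_option autoImplicit false

namespace Pool.Agent.U913.RD.EXCL

open Pool.Agent.U220.RD

/-- a functional which is `1` at `x` and vanishes on `N` -/
lemma functional {V : Type} [AddCommGroup V] [Module ℂ V] (N : Submodule ℂ V) (x : V)
    (hx : x ∉ N) : ∃ f : V →ₗ[ℂ] ℂ, f x = 1 ∧ ∀ w ∈ N, f w = 0 := by
  obtain ⟨f, h1, h2⟩ := Submodule.exists_dual_map_eq_bot_of_notMem hx inferInstance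
  refine ⟨(f x)⁻¹ • f, by simp [inv_mul_cancel₀ h1], fun w hw => ?_⟩
  have h3 : f w ∈ N.map f := ⟨w, hw, rfl⟩
  rw [h2, Submodule.mem_bot] at h3
  simp [h3]

/-- If `∑ X_j ⊗ Z_j = 0` and one `X_j` is `1` then the `Z_j X_j ^ 2` are algebraically dependent. -/
lemma dim {k T : Type} [Field k] [Algebra ℂ k] [Fintype T] (X Z : T → k) (i0 : T)
    (h1 : X i0 = 1) (h : ∀ l : k →ₗ[ℂ] ℂ, ∑ j, l (X j) • Z j = 0) :
    ¬ AlgebraicIndependent ℂ (fun j => Z j * X j ^ 2) := by
  classical
  intro hind
  -- a basis of the span of the `X j` containing `1 = X i0`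
  obtain ⟨b, -, hb0, hbs, hbi⟩ := exists_linearIndepOn_extension (K := ℂ) (v := X) (s := {i0})
    (t := Set.univ) (by
      rw [linearIndepOn_singleton_iff]
      rw [h1]; exact one_ne_zero) (Set.subset_univ _)
  have hi0 : i0 ∈ b := hb0 rfl
  let y : {j // j ≠ i0} → k := fun j => if (j : T) ∈ b then X j else Z j
  have hX0 : ∀ j ∈ b, X j ∈ Algebra.adjoin ℂ (Set.range y) := by
    intro j hj
    by_cases hj0 : j = i0
    · rw [hj0, h1]; exact one_mem _
    · refine Algebra.subset_adjoin ⟨⟨j, hj0⟩, ?_⟩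
      simp only [y, if_pos hj]
  have hX : ∀ j, X j ∈ Algebra.adjoin ℂ (Set.range y) := by
    intro j
    have h2 : X j ∈ Submodule.span ℂ (X '' b) := hbs ⟨j, Set.mem_univ j, rfl⟩
    have h3 : Submodule.span ℂ (X '' b) ≤ Subalgebra.toSubmodule (Algebra.adjoin ℂ (Set.range y)) := by
      rw [Submodule.span_le]
      rintro _ ⟨i, hi, rfl⟩
      exact hX0 i hi
    exact h3 h2
  have hZ0 : ∀ j, j ∉ b → Z j ∈ Algebra.adjoin ℂ (Set.range y) := by
    intro j hj
    have hj0 : j ≠ i0 := fun h => hj (h ▸ hi0)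
    refine Algebra.subset_adjoin ⟨⟨j, hj0⟩, ?_⟩
    simp only [y, if_neg hj]
  have hZ : ∀ j, Z j ∈ Algebra.adjoin ℂ (Set.range y) := by
    intro j
    by_cases hj : j ∈ b
    · -- the dual functional
      obtain ⟨l, hl1, hl2⟩ := functional _ _ (LinearIndepOn.notMem_span hbi hj)
      have h4 := h l
      rw [← Finset.add_sum_erase _ _ (Finset.mem_univ j), hl1, one_smul] at h4
      rw [eq_neg_of_add_eq_zero_left h4]
      refine neg_mem (sum_mem fun i hi => ?_)
      by_cases hib : i ∈ b
      · rw [hl2 (X i) (Submodule.subset_span ⟨i, ⟨hib, Finset.ne_of_mem_erase hi⟩, rfl⟩), zero_smul]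
        exact zero_mem _
      · exact Subalgebra.smul_mem _ (hZ0 i hib) _
    · exact hZ0 j hj
  have hu : ∀ j, ∃ q : MvPolynomial {j // j ≠ i0} ℂ, MvPolynomial.aeval y q = Z j * X j ^ 2 := by
    intro j
    have h2 : Z j * X j ^ 2 ∈ Algebra.adjoin ℂ (Set.range y) := mul_mem (hZ j) (pow_mem (hX j) 2)
    rw [Algebra.adjoin_range_eq_range_aeval] at h2
    exact h2
  choose q hq using hu
  have hqi : AlgebraicIndependent ℂ q := by
    apply AlgebraicIndependent.of_comp (MvPolynomial.aeval y)
    convert hind using 1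
    funext j
    exact hq j
  have h4 := hqi.cardinalMk_le_trdeg
  rw [MvPolynomial.trdeg_of_isDomain] at h4
  simp only [Cardinal.mk_fintype, Cardinal.lift_natCast, Nat.cast_le] at h4
  have h5 : Fintype.card {j // j ≠ i0} < Fintype.card T := Fintype.card_subtype_lt (x := i0) (by simp)
  omega

/-- **step 1** -/
lemma step1 {ι W κ : Type} [DecidableEq ι] [AddCommGroup W] [Module ℂ W] [Field κ] [Algebra ℂ κ]
    (O : ValuationSubring κ) (a : ι → W) (S : Finset ι) (e f : ι) (t : W →ₗ[ℂ] κ) (z : ι → κ)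
    (he : e ∈ S) (hef : e ≠ f)
    (hte : t (a e) = 1) (hrel : ∀ ψ : W →ₗ[ℂ] ℂ, ∑ i ∈ S, ψ (a i) • z i = 0)
    (hres : ResInd O (fun i : {i // i ∈ (S.erase f).erase e} => uu a t z i))
    (huf : O.valuation (uu a t z f) < 1)
    (hC : ∀ c : ℂ, c ≠ 0 → O.valuation (algebraMap ℂ κ c) = 1)
    (hCO : ∀ c : ℂ, algebraMap ℂ κ c ∈ O)
    (hu : ∀ i ∈ S, i ≠ e → i ≠ f → O.valuation (z i) * O.valuation (t (a i)) ^ 2 = 1)
    (i0 : ι) (hi0 : i0 ∈ S) (hi0e : i0 ≠ e) (hi0f : i0 ≠ f) :
    O.valuation (t (a i0)) ≤ 1 ∧ O.valuation (z i0) ≤ O.valuation (z e) := by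
  classical
  by_contra hneg
  have h00 := hu i0 hi0 hi0e hi0f
  set x0 : κ := t (a i0) with hx0
  have hx0v : O.valuation x0 ≠ 0 := by
    intro h; rw [h] at h00; simp at h00
  have hx0n : x0 ≠ 0 := by
    intro h; rw [h, map_zero] at hx0v; exact hx0v rfl
  have hx0p : 0 < O.valuation x0 := zero_lt_iff.2 hx0v
  let _ : Algebra ℂ O := ((algebraMap ℂ κ).codRestrict O hCO).toAlgebra
  let rI : O →ₐ[ℂ] IsLocalRing.ResidueField O :=
    { IsLocalRing.residue O with commutes' := fun _ => rfl }
  let sI : O →ₐ[ℂ] κ := { O.subtype with commutes' := fun _ => rfl }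
  have hrI : ∀ x : O, rI x = 0 ↔ O.valuation (x : κ) < 1 := by
    intro x
    rw [← ValuationSubring.valuation_lt_one_iff]
    exact IsLocalRing.residue_eq_zero_iff x
  let Tf : Finset ι := S.filter (fun i => i ≠ e ∧ i ≠ f ∧ O.valuation (t (a i)) = O.valuation x0)
  have hTf : ∀ j : {i // i ∈ Tf}, (j : ι) ∈ S ∧ (j : ι) ≠ e ∧ (j : ι) ≠ f ∧
      O.valuation (t (a j)) = O.valuation x0 := fun j => Finset.mem_filter.1 j.2
  have hXm : ∀ j : {i // i ∈ Tf}, t (a j) / x0 ∈ O := by
    intro j
    rw [← ValuationSubring.valuation_le_one_iff, map_div₀, (hTf j).2.2.2, div_self hx0v]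
  have hZm : ∀ j : {i // i ∈ Tf}, z j * x0 ^ 2 ∈ O := by
    intro j
    obtain ⟨h1, h2, h3, h4⟩ := hTf j
    rw [← ValuationSubring.valuation_le_one_iff, map_mul, map_pow, ← h4]
    exact (hu j h1 h2 h3).le
  let X : {i // i ∈ Tf} → O := fun j => ⟨_, hXm j⟩
  let Z : {i // i ∈ Tf} → O := fun j => ⟨_, hZm j⟩
  have hi0T : i0 ∈ Tf := Finset.mem_filter.2 ⟨hi0, hi0e, hi0f, rfl⟩
  refine dim (fun j => rI (X j)) (fun j => rI (Z j)) ⟨i0, hi0T⟩ ?_ ?_ ?_
  · have : X ⟨i0, hi0T⟩ = 1 := by
      apply Subtype.ext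
      change t (a i0) / x0 = 1
      rw [← hx0, div_self hx0n]
    simp only [this, map_one]
  · intro l
    let L : Submodule ℂ W :=
      { carrier := {w | t w / x0 ∈ O}
        add_mem' := by
          intro v w hv hw
          rw [Set.mem_ofPred_eq] at hv hw ⊢
          rw [map_add, add_div]
          exact add_mem hv hw
        zero_mem' := by
          rw [Set.mem_ofPred_eq, map_zero, zero_div]
          exact zero_mem _
        smul_mem' := by
          intro c w hw
          rw [Set.mem_ofPred_eq] at hw ⊢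
          rw [map_smul, Algebra.smul_def, mul_div_assoc]
          exact mul_mem (hCO c) hw }
    let τ : L →ₗ[ℂ] O :=
      { toFun := fun w => ⟨t w / x0, w.2⟩
        map_add' := by
          intro v w
          apply Subtype.ext
          change t (v + w) / x0 = t v / x0 + t w / x0
          rw [map_add, add_div]
        map_smul' := by
          intro c w
          apply Subtype.ext
          change t (c • w) / x0 = algebraMap ℂ κ c * (t w / x0)
          rw [map_smul, Algebra.smul_def, mul_div_assoc] }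
    obtain ⟨ψ, hψ⟩ := LinearMap.exists_extend (l ∘ₗ rI.toLinearMap ∘ₗ τ)
    have hψ' : ∀ w (hw : t w / x0 ∈ O), ψ w = l (rI ⟨t w / x0, hw⟩) :=
      fun w hw => LinearMap.congr_fun hψ ⟨w, hw⟩
    have hψ0 : ∀ w, O.valuation (t w) < O.valuation x0 → ψ w = 0 := by
      intro w hw
      have h1 : O.valuation (t w / x0) < 1 := by
        rw [map_div₀]; exact (div_lt_one₀ hx0p).2 hw
      rw [hψ' w ((ValuationSubring.valuation_le_one_iff _ _).1 h1.le), (hrI _).2 h1, map_zero]
    have h3 : ∑ i ∈ S, ψ (a i) • (z i * x0 ^ 2) = 0 := by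
      have h4 : ∑ i ∈ S, ψ (a i) • (z i * x0 ^ 2) = (∑ i ∈ S, ψ (a i) • z i) * x0 ^ 2 := by
        rw [Finset.sum_mul]
        exact Finset.sum_congr rfl fun i _ => by rw [smul_mul_assoc]
      rw [h4, hrel ψ, zero_mul]
    rw [← Finset.sum_filter_add_sum_filter_not S
      (fun i => i ≠ e ∧ i ≠ f ∧ O.valuation (t (a i)) = O.valuation x0)] at h3
    have hsm : ∀ (c : ℂ) (x : κ), O.valuation x < 1 → O.valuation (c • x) < 1 := by
      intro c x hx
      by_cases hc : c = 0
      · rw [hc, zero_smul, map_zero]; exact zero_lt_one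
      · rw [Algebra.smul_def, map_mul, hC c hc, one_mul]; exact hx
    have h5 : O.valuation (∑ i ∈ S.filter (fun i => ¬ (i ≠ e ∧ i ≠ f ∧
        O.valuation (t (a i)) = O.valuation x0)), ψ (a i) • (z i * x0 ^ 2)) < 1 := by
      refine Valuation.map_sum_lt _ one_ne_zero fun i hi => ?_
      obtain ⟨hiS, hi⟩ := Finset.mem_filter.1 hi
      by_cases hlt : O.valuation (t (a i)) < O.valuation x0
      · rw [hψ0 _ hlt, zero_smul, map_zero]; exact zero_lt_one
      refine hsm _ _ ?_
      rw [map_mul, map_pow]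
      have hge := not_lt.1 hlt
      by_cases hie : i = e
      · subst hie
        rw [hte, map_one] at hge
        have h7 : O.valuation (z i) < O.valuation (z i0) := by
          by_contra h8
          exact hneg ⟨hge, not_lt.1 h8⟩
        rw [← h00]
        exact mul_lt_mul_of_pos_right h7 (pow_pos hx0p 2)
      by_cases hif : i = f
      · subst hif
        unfold uu at huf
        rw [map_mul, map_pow] at huf
        refine lt_of_le_of_lt ?_ huf
        gcongr
      · have h9 : O.valuation x0 < O.valuation (t (a i)) :=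
          lt_of_le_of_ne hge fun h => hi ⟨hie, hif, h.symm⟩
        have h10 := hu i hiS hie hif
        rw [← h10]
        have h11 : 0 < O.valuation (z i) := by
          rw [zero_lt_iff]
          intro h12
          rw [h12, zero_mul] at h10
          exact zero_ne_one h10
        exact mul_lt_mul_of_pos_left (pow_lt_pow_left₀ h9 zero_le two_ne_zero) h11
    have h6 : O.valuation (∑ i ∈ Tf, ψ (a i) • (z i * x0 ^ 2)) < 1 := by
      rw [eq_neg_of_add_eq_zero_left h3, Valuation.map_neg]
      exact h5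
    have h7 : rI (∑ j : {i // i ∈ Tf}, ψ (a j) • Z j) = 0 := by
      rw [hrI]
      have h8 : sI (∑ j : {i // i ∈ Tf}, ψ (a j) • Z j) = ∑ i ∈ Tf, ψ (a i) • (z i * x0 ^ 2) := by
        rw [map_sum, ← Finset.sum_coe_sort Tf]
        refine Finset.sum_congr rfl fun j _ => ?_
        rw [map_smul]
        rfl
      change O.valuation (sI (∑ j : {i // i ∈ Tf}, ψ (a j) • Z j)) < 1
      rw [h8]
      exact h6
    rw [map_sum] at h7
    rw [← h7]
    refine Finset.sum_congr rfl fun j _ => ?_
    rw [map_smul, hψ' (a j) (hXm j)]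
  · rw [algebraicIndependent_iff]
    intro p hp
    by_contra hp0
    let inc : {i // i ∈ Tf} → {i // i ∈ (S.erase f).erase e} := fun j =>
      ⟨j, by
        obtain ⟨h1, h2, h3, -⟩ := hTf j
        simp [h1, h2, h3]⟩
    have hinc : Function.Injective inc := fun i j h => by
      have h1 := congrArg Subtype.val h
      exact Subtype.ext h1
    have hP := hres (MvPolynomial.rename inc p) fun h =>
      hp0 (MvPolynomial.rename_injective inc hinc (by rw [h, map_zero]))
    rw [MvPolynomial.aeval_rename] at hP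
    have h8 : (fun i : {i // i ∈ (S.erase f).erase e} => uu a t z i) ∘ inc =
        fun j => sI (Z j * X j ^ 2) := by
      funext j
      change z j * t (a j) ^ 2 = z j * x0 ^ 2 * (t (a j) / x0) ^ 2
      field_simp
    rw [h8, ← MvPolynomial.comp_aeval_apply] at hP
    have h9 : (fun j => rI (Z j) * rI (X j) ^ 2) = fun j => rI (Z j * X j ^ 2) := by
      funext j
      simp only [map_mul, map_pow]
    rw [h9, ← MvPolynomial.comp_aeval_apply, hrI] at hp
    exact (ne_of_lt hp) hP

theorem t_EXCL : S_EXCL := by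
  intro ι W κ _ _ _ _ _ O a S e f t z he hf hef haf hspan hte hrel hres huf
  have hC : ∀ c : ℂ, c ≠ 0 → O.valuation (algebraMap ℂ κ c) = 1 := by
    intro c hc
    have := hres (MvPolynomial.C c) (by simpa using hc)
    simpa using this
  have hCO : ∀ c : ℂ, algebraMap ℂ κ c ∈ O := by
    intro c
    by_cases hc : c = 0
    · rw [hc, map_zero]; exact zero_mem _
    · exact (ValuationSubring.valuation_le_one_iff _ _).1 (hC c hc).le
  have hu : ∀ i ∈ S, i ≠ e → i ≠ f → O.valuation (z i) * O.valuation (t (a i)) ^ 2 = 1 := by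
    intro i hi hie hif
    have := hres (MvPolynomial.X ⟨i, by simp [hi, hie, hif]⟩) (MvPolynomial.X_ne_zero _)
    simpa [uu] using this
  have h1 := step1 O a S e f t z he hef hte hrel hres huf hC hCO hu
  let OM : Submodule ℂ κ :=
    { carrier := {x | x ∈ O}
      add_mem' := fun hx hy => add_mem (S := ValuationSubring κ) hx hy
      zero_mem' := zero_mem O
      smul_mem' := fun c x hx => by
        rw [Set.mem_ofPred_eq, Algebra.smul_def]
        exact mul_mem (hCO c) hx }
  have hOM : ∀ x, x ∈ OM ↔ O.valuation x ≤ 1 := fun x =>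
    (ValuationSubring.valuation_le_one_iff _ _).symm
  let NM : Submodule ℂ κ :=
    { carrier := {x | O.valuation x < 1}
      add_mem' := fun {x y} hx hy => (Valuation.map_add_lt O.valuation hx hy : O.valuation (x + y) < 1)
      zero_mem' := by rw [Set.mem_ofPred_eq, map_zero]; exact zero_lt_one
      smul_mem' := fun c x hx => by
        by_cases hc : c = 0
        · rw [hc, zero_smul, Set.mem_ofPred_eq, map_zero]; exact zero_lt_one
        · rw [Set.mem_ofPred_eq, Algebra.smul_def, map_mul, hC c hc, one_mul]; exact hx }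
  -- step 2
  have hx1 : ∀ i ∈ S, i ≠ f → t (a i) ∈ OM := by
    intro i hi hif
    rw [hOM]
    by_cases hie : i = e
    · rw [hie, hte, map_one]
    · exact (h1 i hi hie hif).1
  have hx : ∀ i ∈ S, t (a i) ∈ OM := by
    intro i hi
    by_cases hif : i = f
    · rw [hif]
      have h2 : Submodule.span ℂ (a '' ((S.erase f : Finset ι) : Set ι)) ≤ OM.comap t := by
        rw [Submodule.span_le]
        rintro _ ⟨j, hj, rfl⟩
        have hj' := Finset.mem_coe.1 hj
        exact hx1 j (Finset.mem_of_mem_erase hj') (Finset.ne_of_mem_erase hj')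
      exact h2 hspan
    · exact hx1 i hi hif
  -- step 3
  have hze : z e ∈ OM := by
    have h2 : a e ∉ Submodule.span ℂ (a '' {j | O.valuation (t (a j)) < 1}) := by
      intro h3
      have h4 : Submodule.span ℂ (a '' {j | O.valuation (t (a j)) < 1}) ≤ NM.comap t := by
        rw [Submodule.span_le]
        rintro _ ⟨j, hj, rfl⟩
        exact hj
      have h5 : O.valuation (t (a e)) < 1 := h4 h3
      rw [hte, map_one] at h5
      exact lt_irrefl _ h5
    obtain ⟨ψ, hψ1, hψ2⟩ := functional _ _ h2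
    have h3 := hrel ψ
    rw [← Finset.add_sum_erase _ _ he, hψ1, one_smul] at h3
    rw [eq_neg_of_add_eq_zero_left h3]
    refine neg_mem (sum_mem fun j hj => ?_)
    have hjS := Finset.mem_of_mem_erase hj
    have hje := Finset.ne_of_mem_erase hj
    by_cases hlt : O.valuation (t (a j)) < 1
    · rw [hψ2 (a j) (Submodule.subset_span ⟨j, hlt, rfl⟩), zero_smul]
      exact zero_mem _
    · have h4 : O.valuation (t (a j)) = 1 :=
        le_antisymm ((hOM _).1 (hx j hjS)) (not_lt.1 hlt)
      refine OM.smul_mem _ ?_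
      rw [hOM]
      by_cases hjf : j = f
      · unfold uu at huf
        rw [← hjf, map_mul, map_pow, h4, one_pow, mul_one] at huf
        exact huf.le
      · have h5 := hu j hjS hje hjf
        rw [h4, one_pow, mul_one] at h5
        exact h5.le
  have hz1 : ∀ i ∈ S, i ≠ f → z i ∈ OM := by
    intro i hi hif
    by_cases hie : i = e
    · rw [hie]; exact hze
    · rw [hOM]
      exact (h1 i hi hie hif).2.trans ((hOM _).1 hze)
  -- step 4
  have hz : ∀ i ∈ S, z i ∈ OM := by
    intro i hi
    by_cases hif : i = f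
    · rw [hif]
      obtain ⟨ψ, hψ1, -⟩ := functional (⊥ : Submodule ℂ W) (a f) (by rwa [Submodule.mem_bot])
      have h3 := hrel ψ
      rw [← Finset.add_sum_erase _ _ hf, hψ1, one_smul] at h3
      rw [eq_neg_of_add_eq_zero_left h3]
      exact neg_mem (sum_mem fun j hj =>
        OM.smul_mem _ (hz1 j (Finset.mem_of_mem_erase hj) (Finset.ne_of_mem_erase hj)))
    · exact hz1 i hi hif
  exact fun i hi => ⟨hx i hi, hz i hi⟩

end Pool.Agent.U913.RD.EXCL
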